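import Pool.Agent.Q255.EP.Stm4
import Pool.Agent.Q255.IC.Basic
import Pool.Agent.Helper602.PNT
import Pool.Agent.Helper602.MK.J3

/-! # Project EP (helper255), job COL: lower bound for the mean of correlations with shifted primes -/

set_option autoImplicit false

namespace Pool.Agent.Q14.EP

open Filter Topology MeasureTheory Pool.Agent.Q255.IC Pool.Agent.Q255.IR Pool.Agent.Q255.EP

/-- the weight `log (n - h)` -/
noncomputable def lgS (h : ℤ) (n : ℕ) : ℝ := Real.log ((((n : ℤ) - h).toNat : ℕ) : ℝ)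

/-- the `n` with `n - h` prime -/
noncomputable def spS (h : ℤ) (X : ℕ) : Finset ℕ :=
  (Finset.Icc 1 X).filter fun n => (((n : ℤ) - h).toNat).Prime

/-- the part divisible by `r²` -/
noncomputable def sqS (h : ℤ) (X r : ℕ) : ℝ :=
  ∑ n ∈ (spS h X).filter (fun n => r * r ∣ n), lgS h n

theorem mem_spS {h : ℤ} {X n : ℕ} :
    n ∈ spS h X ↔ (1 ≤ n ∧ n ≤ X) ∧ (((n : ℤ) - h).toNat).Prime := by
  unfold spS
  rw [Finset.mem_filter, Finset.mem_Icc]

theorem spS_cast {h : ℤ} {X n : ℕ} (hn : n ∈ spS h X) :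
    ((((n : ℤ) - h).toNat : ℕ) : ℤ) = (n : ℤ) - h := by
  have h1 := (mem_spS.1 hn).2.pos
  omega

theorem lgS_nonneg {h : ℤ} {X n : ℕ} (hn : n ∈ spS h X) : 0 ≤ lgS h n := by
  unfold lgS
  refine Real.log_nonneg ?_
  exact_mod_cast (mem_spS.1 hn).2.one_lt.le

theorem sqS_nonneg (h : ℤ) (X r : ℕ) : 0 ≤ sqS h X r := by
  unfold sqS
  refine Finset.sum_nonneg ?_
  intro n hn
  exact lgS_nonneg (Finset.mem_filter.1 hn).1

/-- (A) -/
theorem colA (h : ℤ) : ∀ᶠ X : ℕ in atTop, (59 / 60 : ℝ) * X ≤ ∑ n ∈ spS h X, lgS h n := by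
  classical
  obtain ⟨H, hH⟩ : ∃ H : ℕ, H = h.natAbs := ⟨_, rfl⟩
  have h1 : ∀ᶠ x : ℝ in atTop, (119 / 120 : ℝ) < Chebyshev.theta x / x :=
    Helper602.PNT.theta_div_tendsto.eventually (lt_mem_nhds (by norm_num))
  have h2 : Tendsto (fun X : ℕ => ((X : ℝ) - H)) atTop atTop :=
    tendsto_atTop_add_const_right _ _ tendsto_natCast_atTop_atTop
  have h3 := h2.eventually h1
  obtain ⟨T, hT⟩ : ∃ T : ℝ, T = Chebyshev.theta (H : ℝ) := ⟨_, rfl⟩
  filter_upwards [h3, h2.eventually (eventually_ge_atTop (1 : ℝ)),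
    h2.eventually (eventually_ge_atTop ((H : ℝ))),
    tendsto_natCast_atTop_atTop.eventually (eventually_ge_atTop (120 * ((H : ℝ) + T)))] with X hX hX1 hX2 hX3
  have hXH : (0 : ℝ) < (X : ℝ) - H := by linarith
  rw [lt_div_iff₀ hXH] at hX
  have hHX : 2 * H ≤ X := by
    have : (2 * (H : ℝ)) ≤ X := by linarith
    exact_mod_cast this
  have hle : Chebyshev.theta ((X : ℝ) - H) - T ≤ ∑ n ∈ spS h X, lgS h n := by
    obtain ⟨S, hS⟩ : ∃ S : Finset ℕ, S = (Finset.Ioc H (X - H)).filter Nat.Prime := ⟨_, rfl⟩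
    have e1 : Chebyshev.theta ((X : ℝ) - H) - T = ∑ p ∈ S, Real.log p := by
      have hfl : ⌊(X : ℝ) - H⌋₊ = X - H := by
        have : (X : ℝ) - H = ((X - H : ℕ) : ℝ) := by
          rw [Nat.cast_sub (by omega)]
        rw [this, Nat.floor_natCast]
      rw [hT]
      unfold Chebyshev.theta
      rw [hfl, Nat.floor_natCast, sub_eq_iff_eq_add, hS, add_comm]
      rw [← Finset.sum_union]
      · refine Finset.sum_congr ?_ fun _ _ => rfl
        ext p
        simp only [Finset.mem_union, Finset.mem_filter, Finset.mem_Ioc]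
        constructor
        · rintro ⟨⟨ha, hb⟩, hc⟩
          by_cases hp : p ≤ H
          · exact Or.inl ⟨⟨ha, hp⟩, hc⟩
          · exact Or.inr ⟨⟨by omega, hb⟩, hc⟩
        · rintro (⟨⟨ha, hb⟩, hc⟩ | ⟨⟨ha, hb⟩, hc⟩)
          · exact ⟨⟨ha, by omega⟩, hc⟩
          · exact ⟨⟨by omega, hb⟩, hc⟩
      · rw [Finset.disjoint_left]
        intro p hp hq
        rw [Finset.mem_filter, Finset.mem_Ioc] at hp hq
        omega
    rw [e1]
    have e2 : ∑ p ∈ S, Real.log p = ∑ n ∈ S.image (fun p : ℕ => ((p : ℤ) + h).toNat), lgS h n := by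
      rw [Finset.sum_image]
      · refine Finset.sum_congr rfl ?_
        intro p hp
        rw [hS, Finset.mem_filter, Finset.mem_Ioc] at hp
        unfold lgS
        have : ((((((p : ℤ) + h).toNat : ℕ) : ℤ) - h).toNat : ℕ) = p := by omega
        rw [this]
      · intro p hp q hq hpq
        have hp' := Finset.mem_coe.1 hp
        have hq' := Finset.mem_coe.1 hq
        rw [hS, Finset.mem_filter, Finset.mem_Ioc] at hp' hq'
        simp only at hpq
        omega
    rw [e2]
    refine Finset.sum_le_sum_of_subset_of_nonneg ?_ ?_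
    · intro n hn
      obtain ⟨p, hp, rfl⟩ := Finset.mem_image.1 hn
      rw [hS, Finset.mem_filter, Finset.mem_Ioc] at hp
      rw [mem_spS]
      have : ((((((p : ℤ) + h).toNat : ℕ) : ℤ) - h).toNat : ℕ) = p := by omega
      rw [this]
      refine ⟨?_, hp.2⟩
      constructor
      · omega
      · omega
    · intro n hn _
      exact lgS_nonneg hn
  have hT0 : 0 ≤ T := by
    rw [hT]
    exact Chebyshev.theta_nonneg _
  have hH0 : (0 : ℝ) ≤ H := Nat.cast_nonneg H
  have : (59 / 60 : ℝ) * X ≤ 119 / 120 * (X - H) - T := by linarith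
  linarith

/-- (B) -/
theorem colB (h : ℤ) (r : ℕ) (hr : r.Prime) (hrh : ¬ (r : ℤ) ∣ h) (δ : ℝ) (hδ : 0 < δ) :
    ∀ᶠ X : ℕ in atTop, sqS h X r ≤ (1 / ((r : ℝ) * ((r : ℝ) - 1)) + δ) * X := by
  classical
  obtain ⟨H, hH⟩ : ∃ H : ℕ, H = h.natAbs := ⟨_, rfl⟩
  have : NeZero (r * r) := ⟨Nat.mul_ne_zero hr.ne_zero hr.ne_zero⟩
  have hr2 : (2 : ℝ) ≤ r := by exact_mod_cast hr.two_le
  have hphi : ((Nat.totient (r * r) : ℕ) : ℝ) = (r : ℝ) * ((r : ℝ) - 1) := by
    have : Nat.totient (r * r) = r * (r - 1) := by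
      rw [← pow_two, Nat.totient_prime_pow hr (by norm_num)]
      simp
    rw [this]
    push_cast [Nat.cast_sub hr.one_le]
    rfl
  have hunit : IsUnit ((-h : ℤ) : ZMod (r * r)) := by
    rw [ZMod.coe_int_isUnit_iff_isCoprime]
    rw [IsCoprime.neg_right_iff]
    push_cast
    have h1 : IsCoprime (r : ℤ) h :=
      (Nat.prime_iff_prime_int.1 hr).coprime_iff_not_dvd.2 hrh
    exact IsCoprime.mul_left h1 h1
  have h1 := Helper602.PNT.pnt_residueClass hunit
  rw [hphi, ← one_div] at h1
  have h2 : Tendsto (fun X : ℕ => ((X : ℝ) + H)) atTop atTop :=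
    tendsto_atTop_add_const_right _ _ tendsto_natCast_atTop_atTop
  have h3 := (h1.comp h2).eventually (gt_mem_nhds (show
    1 / ((r : ℝ) * ((r : ℝ) - 1)) < 1 / ((r : ℝ) * ((r : ℝ) - 1)) + δ / 2 by linarith))
  filter_upwards [h3, eventually_ge_atTop 1,
    tendsto_natCast_atTop_atTop.eventually (eventually_ge_atTop
      ((1 / ((r : ℝ) * ((r : ℝ) - 1)) + δ / 2) * H / (δ / 2)))] with X hX hX1 hX3
  have hXp : (0 : ℝ) < X := by exact_mod_cast hX1
  have hH0 : (0 : ℝ) ≤ H := Nat.cast_nonneg H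
  have hXH : (0 : ℝ) < (X : ℝ) + H := by linarith
  rw [Function.comp_apply, div_lt_iff₀ hXH] at hX
  rw [div_le_iff₀ (by positivity)] at hX3
  have hle : sqS h X r ≤ ∑ k ∈ Finset.Icc 1 ⌊(X : ℝ) + H⌋₊,
      ArithmeticFunction.vonMangoldt.residueClass ((-h : ℤ) : ZMod (r * r)) k := by
    have hfl : ⌊(X : ℝ) + H⌋₊ = X + H := by
      have : (X : ℝ) + H = ((X + H : ℕ) : ℝ) := by push_cast; rfl
      rw [this, Nat.floor_natCast]
    rw [hfl]
    unfold sqS
    have e1 : ∑ n ∈ (spS h X).filter (fun n => r * r ∣ n), lgS h n =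
        ∑ n ∈ (spS h X).filter (fun n => r * r ∣ n),
          ArithmeticFunction.vonMangoldt.residueClass ((-h : ℤ) : ZMod (r * r))
            (((n : ℤ) - h).toNat) := by
      refine Finset.sum_congr rfl ?_
      intro n hn
      rw [Finset.mem_filter] at hn
      have hp := (mem_spS.1 hn.1).2
      have hc := spS_cast hn.1
      unfold ArithmeticFunction.vonMangoldt.residueClass lgS
      rw [Set.indicator_of_mem, ArithmeticFunction.vonMangoldt_apply_prime hp]
      rw [Set.mem_ofPred_eq]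
      have : (((((n : ℤ) - h).toNat : ℕ) : ℤ) : ZMod (r * r)) = ((-h : ℤ) : ZMod (r * r)) := by
        rw [hc]
        push_cast
        have h0 : ((n : ℕ) : ZMod (r * r)) = 0 := (ZMod.natCast_eq_zero_iff _ _).2 hn.2
        rw [h0]
        ring
      rw [← this]
      push_cast
      rfl
    rw [e1, ← Finset.sum_image (f := ArithmeticFunction.vonMangoldt.residueClass
      ((-h : ℤ) : ZMod (r * r))) (g := fun n : ℕ => ((n : ℤ) - h).toNat)]
    · refine Finset.sum_le_sum_of_subset_of_nonneg ?_ ?_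
      · intro k hk
        obtain ⟨n, hn, rfl⟩ := Finset.mem_image.1 hk
        rw [Finset.mem_filter] at hn
        have hp := (mem_spS.1 hn.1)
        have := hp.2.pos
        rw [Finset.mem_Icc]
        omega
      · intro k _ _
        exact ArithmeticFunction.vonMangoldt.residueClass_nonneg _ _
    · intro p hp q hq hpq
      have hp' := (Finset.mem_filter.1 (Finset.mem_coe.1 hp)).1
      have hq' := (Finset.mem_filter.1 (Finset.mem_coe.1 hq)).1
      have a1 := spS_cast hp'
      have a2 := spS_cast hq'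
      simp only at hpq
      omega
  have : (1 / ((r : ℝ) * ((r : ℝ) - 1)) + δ) * (X : ℝ) =
      (1 / ((r : ℝ) * ((r : ℝ) - 1)) + δ / 2) * X + X * (δ / 2) := by ring
  rw [this]
  linarith

/-- (C) -/
theorem colC (h : ℤ) (r : ℕ) (hr : r.Prime) (hrh : (r : ℤ) ∣ h) (δ : ℝ) (hδ : 0 < δ) :
    ∀ᶠ X : ℕ in atTop, sqS h X r ≤ (1 / ((r : ℝ) * ((r : ℝ) - 1)) + δ) * X := by
  classical
  have hr2 : (2 : ℝ) ≤ r := by exact_mod_cast hr.two_le
  filter_upwards [tendsto_natCast_atTop_atTop.eventually (eventually_ge_atTop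
      (Real.log r / δ))] with X hX
  rw [div_le_iff₀ hδ] at hX
  have hpos : 0 ≤ 1 / ((r : ℝ) * ((r : ℝ) - 1)) := by
    have : 0 < (r : ℝ) - 1 := by linarith
    positivity
  have hXp : (0 : ℝ) ≤ X := Nat.cast_nonneg X
  have hle : sqS h X r ≤ Real.log r := by
    unfold sqS
    have e1 : ∀ n ∈ (spS h X).filter (fun n => r * r ∣ n), n = ((r : ℤ) + h).toNat := by
      intro n hn
      rw [Finset.mem_filter] at hn
      have hp := (mem_spS.1 hn.1).2
      have hc := spS_cast hn.1
      have h1 : (r : ℤ) ∣ (n : ℤ) := by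
        exact_mod_cast (dvd_trans (dvd_mul_right r r) hn.2)
      have h2 : (r : ℤ) ∣ ((((n : ℤ) - h).toNat : ℕ) : ℤ) := by
        rw [hc]
        exact dvd_sub h1 hrh
      have h3 : r ∣ ((n : ℤ) - h).toNat := by exact_mod_cast h2
      have h4 := (Nat.prime_dvd_prime_iff_eq hr hp).1 h3
      omega
    have e2 : (spS h X).filter (fun n => r * r ∣ n) ⊆ {((r : ℤ) + h).toNat} := by
      intro n hn
      rw [Finset.mem_singleton]
      exact e1 n hn
    rcases Finset.subset_singleton_iff.1 e2 with h0 | h0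
    · rw [h0, Finset.sum_empty]
      exact Real.log_nonneg (by linarith)
    · rw [h0, Finset.sum_singleton]
      have hm : ((r : ℤ) + h).toNat ∈ (spS h X).filter (fun n => r * r ∣ n) := by
        rw [h0]
        exact Finset.mem_singleton_self _
      have hm' := (Finset.mem_filter.1 hm).1
      have := mem_spS.1 hm'
      unfold lgS
      have e3 : ((((((r : ℤ) + h).toNat : ℕ) : ℤ) - h).toNat : ℕ) = r := by omega
      rw [e3]
  nlinarith [mul_nonneg hpos hXp]

/-- `LL ≤ 2 log X` -/
theorem lgS_le {h : ℤ} {X n : ℕ} (hX : h.natAbs + 2 ≤ X) (hn : n ∈ spS h X) :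
    lgS h n ≤ 2 * Real.log X := by
  have h1 := mem_spS.1 hn
  have h2 := spS_cast hn
  have h3 := h1.2.pos
  unfold lgS
  have h4 : ((n : ℤ) - h).toNat ≤ X ^ 2 := by
    have : ((n : ℤ) - h).toNat ≤ 2 * X := by omega
    refine this.trans ?_
    rw [pow_two]
    exact Nat.mul_le_mul_right _ (by omega)
  have h5 : Real.log ((((n : ℤ) - h).toNat : ℕ) : ℝ) ≤ Real.log ((X : ℝ) ^ 2) := by
    refine Real.log_le_log (by exact_mod_cast h3) ?_
    exact_mod_cast h4
  rw [Real.log_pow] at h5
  exact_mod_cast h5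

/-- trivial count and count by Brun-Titchmarsh -/
theorem count_le (h : ℤ) (X r : ℕ) (hr : 1 ≤ r) (hh : h.natAbs < r) :
    (((spS h X).filter (fun n => r * r ∣ n)).card ≤ X / (r * r)) ∧
    (((spS h X).filter (fun n => r * r ∣ n)).card ≤
      ((Finset.range (X / (r * r))).filter
        (fun k => ((((r * r : ℕ) : ℤ) - h).toNat + k * (r * r)).Prime)).card) := by
  classical
  have hrr : h.natAbs < r * r := lt_of_lt_of_le hh (Nat.le_mul_of_pos_left r hr)
  have hsub : (spS h X).filter (fun n => r * r ∣ n) ⊆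
      ((Finset.range (X / (r * r))).filter
        (fun k => ((((r * r : ℕ) : ℤ) - h).toNat + k * (r * r)).Prime)).image
          (fun k => (k + 1) * (r * r)) := by
    intro n hn
    rw [Finset.mem_filter] at hn
    obtain ⟨m, hm⟩ := hn.2
    have h1 := mem_spS.1 hn.1
    have hm0 : m ≠ 0 := by
      rintro rfl
      omega
    obtain ⟨k, rfl⟩ := Nat.exists_eq_succ_of_ne_zero hm0
    rw [Finset.mem_image]
    refine ⟨k, ?_, ?_⟩
    · rw [Finset.mem_filter, Finset.mem_range]
      constructor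
      · rw [Nat.lt_iff_add_one_le, Nat.le_div_iff_mul_le (by positivity)]
        have : (k + 1) * (r * r) = n := by
          rw [hm, Nat.succ_eq_add_one]
          ring
        omega
      · have h2 : (((r * r : ℕ) : ℤ) - h).toNat + k * (r * r) = ((n : ℤ) - h).toNat := by
          have h3 : n = k * (r * r) + r * r := by
            rw [hm, Nat.succ_eq_add_one]
            ring
          have h4 : ((n : ℕ) : ℤ) = ((k * (r * r) : ℕ) : ℤ) + ((r * r : ℕ) : ℤ) := by
            rw [h3]
            push_cast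
            ring
          rw [h4]
          obtain ⟨u, hu⟩ : ∃ u : ℕ, u = k * (r * r) := ⟨_, rfl⟩
          obtain ⟨v, hv⟩ : ∃ v : ℕ, v = r * r := ⟨_, rfl⟩
          rw [← hu, ← hv] 
          rw [← hv] at hrr
          omega
        rw [h2]
        exact h1.2
    · rw [hm, Nat.succ_eq_add_one]
      ring
  have hc := (Finset.card_le_card hsub).trans Finset.card_image_le
  refine ⟨hc.trans ?_, hc⟩
  refine (Finset.card_filter_le _ _).trans ?_
  rw [Finset.card_range]

/-- (D) -/
theorem colD (h : ℤ) : ∃ D : ℝ, 0 ≤ D ∧ ∀ X : ℕ, h.natAbs + 20 ≤ X → ∀ r : ℕ, r.Prime → h.natAbs < r →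
    sqS h X r ≤ D * X * (1 / ((r : ℝ) * Real.sqrt r)) := by
  classical
  obtain ⟨C, hC1, hC⟩ := Helper602.MK.BTLib.brun_titchmarsh
  refine ⟨16 * C, by linarith, ?_⟩
  intro X hX r hr hh
  have hr2 : (2 : ℝ) ≤ r := by exact_mod_cast hr.two_le
  have hrp : (0 : ℝ) < r := by linarith
  have hX20 : (20 : ℝ) ≤ X := by
    have : 20 ≤ X := by omega
    exact_mod_cast this
  have hXp : (0 : ℝ) < X := by linarith
  have hlX : 0 < Real.log X := Real.log_pos (by linarith)
  have hsr : 0 < Real.sqrt r := Real.sqrt_pos.2 hrp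
  have hsr2 : Real.sqrt r * Real.sqrt r = r := Real.mul_self_sqrt hrp.le
  have hsr1 : 1 ≤ Real.sqrt r := by
    rw [Real.one_le_sqrt]
    linarith
  obtain ⟨c1, c2⟩ := count_le h X r hr.one_le hh
  obtain ⟨K, hK⟩ : ∃ K : ℕ, K = ((spS h X).filter (fun n => r * r ∣ n)).card := ⟨_, rfl⟩
  rw [← hK] at c1 c2
  have hs : sqS h X r ≤ K * (2 * Real.log X) := by
    unfold sqS
    rw [hK, ← nsmul_eq_mul]
    refine Finset.sum_le_card_nsmul _ _ _ ?_
    intro n hn
    exact lgS_le (by omega) (Finset.mem_filter.1 hn).1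
  refine hs.trans ?_
  rcases Nat.lt_or_ge X (r ^ 4) with h4 | h4
  · have k1 : (K : ℝ) ≤ X / (r * r) := by
      have : (K : ℝ) ≤ ((X / (r * r) : ℕ) : ℝ) := by exact_mod_cast c1
      refine this.trans ?_
      refine Nat.cast_div_le.trans ?_
      push_cast
      rfl
    have k2 : Real.log X ≤ 8 * Real.sqrt r := by
      have a1 : Real.log X ≤ Real.log ((r : ℝ) ^ 4) := by
        refine Real.log_le_log hXp ?_
        exact_mod_cast h4.le
      rw [Real.log_pow] at a1
      have a2 : Real.log (Real.sqrt r) ≤ Real.sqrt r - 1 := Real.log_le_sub_one_of_pos hsr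
      rw [Real.log_sqrt hrp.le] at a2
      push_cast at a1
      linarith
    calc (K : ℝ) * (2 * Real.log X) ≤ (X / (r * r)) * (2 * (8 * Real.sqrt r)) := by
          refine mul_le_mul k1 ?_ (by positivity) (by positivity)
          linarith
      _ = 16 * X * (1 / (r * Real.sqrt r)) := by
          rw [div_mul_eq_mul_div, mul_one_div, div_eq_div_iff (by positivity) (by positivity)]
          linear_combination (16 * (X : ℝ) * r) * hsr2
      _ ≤ 16 * C * X * (1 / (r * Real.sqrt r)) := by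
          refine mul_le_mul_of_nonneg_right ?_ (by positivity)
          nlinarith
  · obtain ⟨N, hN⟩ : ∃ N : ℕ, N = X / (r * r) := ⟨_, rfl⟩
    have hrr : 0 < r * r := Nat.mul_pos hr.pos hr.pos
    have n1 : r * r ≤ N := by
      rw [hN, Nat.le_div_iff_mul_le hrr]
      calc r * r * (r * r) = r ^ 4 := by ring
        _ ≤ X := h4
    have n2 : X < (N + 1) * (r * r) := by
      have := Nat.div_add_mod X (r * r)
      have h5 := Nat.mod_lt X hrr
      rw [← hN] at this
      calc X = r * r * N + X % (r * r) := this.symm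
        _ < r * r * N + r * r := by omega
        _ = (N + 1) * (r * r) := by ring
    have n3 : X < (N + 1) ^ 2 := by
      rw [pow_two]
      exact lt_of_lt_of_le n2 (Nat.mul_le_mul_left _ (by omega))
    have n4 : 2 ≤ N := by
      have : 2 * 2 ≤ r * r := Nat.mul_le_mul hr.two_le hr.two_le
      omega
    have n5 : X < N ^ 4 := by
      refine lt_of_lt_of_le n3 ?_
      have : N + 1 ≤ N ^ 2 := by nlinarith
      calc (N + 1) ^ 2 ≤ (N ^ 2) ^ 2 := Nat.pow_le_pow_left this 2
        _ = N ^ 4 := by ring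
    have hNp : (2 : ℝ) ≤ N := by exact_mod_cast n4
    have n6 : Real.log X ≤ 4 * Real.log N := by
      have a1 : Real.log X ≤ Real.log ((N : ℝ) ^ 4) := by
        refine Real.log_le_log hXp ?_
        exact_mod_cast n5.le
      rw [Real.log_pow] at a1
      exact_mod_cast a1
    have n7 : (K : ℝ) ≤ C * (((r * r : ℕ) : ℝ) / (Nat.totient (r * r) : ℝ)) * N / Real.log N := by
      refine le_trans ?_ (hC ((((r * r : ℕ) : ℤ) - h).toNat) (r * r) N hrr n4)
      rw [hN]
      exact_mod_cast c2
    have hphi : ((Nat.totient (r * r) : ℕ) : ℝ) = (r : ℝ) * ((r : ℝ) - 1) := by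
      have : Nat.totient (r * r) = r * (r - 1) := by
        rw [← pow_two, Nat.totient_prime_pow hr (by norm_num)]
        simp
      rw [this]
      push_cast [Nat.cast_sub hr.one_le]
      rfl
    have n8 : ((r * r : ℕ) : ℝ) / (Nat.totient (r * r) : ℝ) ≤ 2 := by
      rw [hphi, div_le_iff₀ (by nlinarith)]
      push_cast
      nlinarith
    have n9 : (N : ℝ) ≤ X / (r * r) := by
      rw [hN]
      refine Nat.cast_div_le.trans ?_
      push_cast
      rfl
    have hlN : 0 < Real.log N := Real.log_pos (by linarith)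
    have n10 : (K : ℝ) * Real.log N ≤ C * 2 * (X / (r * r)) := by
      have b1 : (K : ℝ) * Real.log N ≤ C * (((r * r : ℕ) : ℝ) / (Nat.totient (r * r) : ℝ)) * N := by
        rw [← le_div_iff₀ hlN]
        exact n7
      refine b1.trans ?_
      have b2 : 0 ≤ ((r * r : ℕ) : ℝ) / (Nat.totient (r * r) : ℝ) := by positivity
      exact mul_le_mul (mul_le_mul_of_nonneg_left n8 (by linarith)) n9 (by positivity) (by linarith)
    have hK0 : (0 : ℝ) ≤ K := Nat.cast_nonneg K
    calc (K : ℝ) * (2 * Real.log X) ≤ K * (2 * (4 * Real.log N)) := by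
          refine mul_le_mul_of_nonneg_left ?_ hK0
          linarith
      _ = 8 * (K * Real.log N) := by ring
      _ ≤ 8 * (C * 2 * (X / (r * r))) := by linarith
      _ = 16 * C * X * (1 / (r * r)) := by ring
      _ ≤ 16 * C * X * (1 / (r * Real.sqrt r)) := by
          refine mul_le_mul_of_nonneg_left ?_ (by positivity)
          refine one_div_le_one_div_of_le (by positivity) ?_
          refine mul_le_mul_of_nonneg_left ?_ hrp.le
          nlinarith

/-- (E) -/
theorem colE (h : ℤ) (X : ℕ) : ∑ n ∈ spS h X, lgS h n ≤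
    ∑ n ∈ (spS h X).filter Squarefree, lgS h n +
      ∑ r ∈ (Finset.range (X + 1)).filter Nat.Prime, sqS h X r := by
  classical
  rw [← Finset.sum_filter_add_sum_filter_not (spS h X) Squarefree]
  refine add_le_add le_rfl ?_
  have h1 : (spS h X).filter (fun n => ¬ Squarefree n) ⊆
      ((Finset.range (X + 1)).filter Nat.Prime).biUnion
        (fun r => (spS h X).filter (fun n => r * r ∣ n)) := by
    intro n hn
    rw [Finset.mem_filter] at hn
    rw [Finset.mem_biUnion]
    have h2 := hn.2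
    rw [Nat.squarefree_iff_prime_squarefree] at h2
    push Not at h2
    obtain ⟨r, hr, hrn⟩ := h2
    have h3 := mem_spS.1 hn.1
    refine ⟨r, ?_, ?_⟩
    · rw [Finset.mem_filter, Finset.mem_range]
      refine ⟨?_, hr⟩
      have h4 : r * r ≤ n := Nat.le_of_dvd (by omega) hrn
      have h5 : r * 1 ≤ r * r := Nat.mul_le_mul_left _ hr.one_le
      omega
    · rw [Finset.mem_filter]
      exact ⟨hn.1, hrn⟩
  calc ∑ n ∈ (spS h X).filter (fun n => ¬ Squarefree n), lgS h n
      ≤ ∑ n ∈ ((Finset.range (X + 1)).filter Nat.Prime).biUnion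
        (fun r => (spS h X).filter (fun n => r * r ∣ n)), lgS h n := by
        refine Finset.sum_le_sum_of_subset_of_nonneg h1 ?_
        intro n hn _
        obtain ⟨r, _, hn'⟩ := Finset.mem_biUnion.1 hn
        exact lgS_nonneg (Finset.mem_filter.1 hn').1
    _ ≤ ∑ r ∈ (Finset.range (X + 1)).filter Nat.Prime,
          ∑ n ∈ (spS h X).filter (fun n => r * r ∣ n), lgS h n := by
        obtain ⟨T, hT⟩ : ∃ T : Finset ℕ, T = (Finset.range (X + 1)).filter Nat.Prime := ⟨_, rfl⟩
        rw [← hT]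
        clear hT
        induction T using Finset.induction_on with
        | empty => simp
        | insert a T ha ih =>
          rw [Finset.biUnion_insert, Finset.sum_insert ha]
          rw [← Finset.union_sdiff_self_eq_union, Finset.sum_union Finset.disjoint_sdiff]
          refine add_le_add le_rfl (le_trans ?_ ih)
          refine Finset.sum_le_sum_of_subset_of_nonneg Finset.sdiff_subset ?_
          intro n hn _
          obtain ⟨r, _, hn'⟩ := Finset.mem_biUnion.1 hn
          exact lgS_nonneg (Finset.mem_filter.1 hn').1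
    _ = _ := rfl

/-- the sum of `1/(r(r-1))` over the primes -/
theorem sum_inv_phi (R : ℕ) (hR : 6 ≤ R) :
    ∑ r ∈ (Finset.range (R + 1)).filter Nat.Prime, 1 / ((r : ℝ) * ((r : ℝ) - 1)) ≤ 53 / 60 - 1 / R := by
  classical
  induction R, hR using Nat.le_induction with
  | base =>
    have : (Finset.range (6 + 1)).filter Nat.Prime = {2, 3, 5} := by decide
    rw [this]
    rw [Finset.sum_insert (by decide), Finset.sum_insert (by decide), Finset.sum_singleton]
    norm_num
  | succ R hR ih =>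
    rw [Finset.range_add_one, Finset.filter_insert]
    have hRp : (6 : ℝ) ≤ R := by exact_mod_cast hR
    have e1 : (1 : ℝ) / (((R + 1 : ℕ) : ℝ) * (((R + 1 : ℕ) : ℝ) - 1)) = 1 / R - 1 / ((R + 1 : ℕ) : ℝ) := by
      have hR0 : (R : ℝ) ≠ 0 := by linarith
      have hR1 : (R : ℝ) + 1 ≠ 0 := by linarith
      push_cast
      rw [add_sub_cancel_right, div_sub_div _ _ hR0 hR1, mul_one, one_mul, add_sub_cancel_left,
        mul_comm]
    split_ifs with hp
    · rw [Finset.sum_insert]
      · rw [e1]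
        linarith
      · rw [Finset.mem_filter, Finset.mem_range]
        omega
    · have e2 : (1 : ℝ) / ((R + 1 : ℕ) : ℝ) ≤ 1 / R := by
        push_cast
        exact one_div_le_one_div_of_le (by linarith) (by linarith)
      linarith

/-- (G) -/
theorem colG (h : ℤ) : ∀ᶠ X : ℕ in atTop, (X : ℝ) / 15 ≤ ∑ n ∈ (spS h X).filter Squarefree, lgS h n := by
  classical
  obtain ⟨D, hD0, hD⟩ := colD h
  have hsum : Summable (fun r : ℕ => D * (1 / ((r : ℝ) * Real.sqrt r))) := by
    refine Summable.mul_left _ ?_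
    have h1 : Summable (fun n : ℕ => 1 / (n : ℝ) ^ (3 / 2 : ℝ)) :=
      Real.summable_one_div_nat_rpow.2 (by norm_num)
    refine h1.congr ?_
    intro n
    rcases Nat.eq_zero_or_pos n with h0 | h0
    · rw [h0]
      simp
    · have hn : (0 : ℝ) < n := by exact_mod_cast h0
      congr 1
      rw [Real.sqrt_eq_rpow]
      nth_rewrite 2 [← Real.rpow_one (n : ℝ)]
      rw [← Real.rpow_add hn]
      norm_num
  obtain ⟨s, hs⟩ := hsum.vanishing (Metric.ball_mem_nhds (0 : ℝ) (show (0 : ℝ) < 1 / 60 by norm_num))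
  obtain ⟨R, hR⟩ : ∃ R : ℕ, R = s.sup id + h.natAbs + 6 := ⟨_, rfl⟩
  have hfin : ∀ᶠ X : ℕ in atTop, ∀ r ∈ (Finset.range (R + 1)).filter Nat.Prime,
      sqS h X r ≤ (1 / ((r : ℝ) * ((r : ℝ) - 1)) + 1 / (60 * ((R : ℝ) + 1))) * X := by
    rw [Filter.eventually_all_finset]
    intro r hr
    have hrp := (Finset.mem_filter.1 hr).2
    by_cases hd : (r : ℤ) ∣ h
    · exact colC h r hrp hd _ (by positivity)
    · exact colB h r hrp hd _ (by positivity)
  filter_upwards [colA h, hfin, eventually_ge_atTop (R + 20)] with X hA hB hX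
  have hXp : (0 : ℝ) ≤ X := Nat.cast_nonneg X
  have hE := colE h X
  have hsplit : ∑ r ∈ (Finset.range (X + 1)).filter Nat.Prime, sqS h X r =
      ∑ r ∈ (Finset.range (R + 1)).filter Nat.Prime, sqS h X r +
      ∑ r ∈ (Finset.Ioc R X).filter Nat.Prime, sqS h X r := by
    rw [← Finset.sum_union]
    · refine Finset.sum_congr ?_ fun _ _ => rfl
      ext p
      simp only [Finset.mem_union, Finset.mem_filter, Finset.mem_Ioc, Finset.mem_range]
      constructor
      · rintro ⟨ha, hc⟩
        by_cases hp : p ≤ R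
        · exact Or.inl ⟨by omega, hc⟩
        · exact Or.inr ⟨⟨by omega, by omega⟩, hc⟩
      · rintro (⟨ha, hc⟩ | ⟨⟨ha, hb⟩, hc⟩)
        · exact ⟨by omega, hc⟩
        · exact ⟨by omega, hc⟩
    · rw [Finset.disjoint_left]
      intro p hp hq
      rw [Finset.mem_filter, Finset.mem_range] at hp
      rw [Finset.mem_filter, Finset.mem_Ioc] at hq
      omega
  have h1 : ∑ r ∈ (Finset.range (R + 1)).filter Nat.Prime, sqS h X r ≤ (54 / 60 : ℝ) * X := by
    calc _ ≤ ∑ r ∈ (Finset.range (R + 1)).filter Nat.Prime,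
          (1 / ((r : ℝ) * ((r : ℝ) - 1)) + 1 / (60 * ((R : ℝ) + 1))) * X := Finset.sum_le_sum hB
      _ = (∑ r ∈ (Finset.range (R + 1)).filter Nat.Prime, 1 / ((r : ℝ) * ((r : ℝ) - 1)) +
          ((Finset.range (R + 1)).filter Nat.Prime).card * (1 / (60 * ((R : ℝ) + 1)))) * X := by
          rw [← Finset.sum_mul, Finset.sum_add_distrib, Finset.sum_const, nsmul_eq_mul]
      _ ≤ (53 / 60 + 1 / 60) * X := by
          refine mul_le_mul_of_nonneg_right ?_ hXp
          refine add_le_add ?_ ?_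
          · refine (sum_inv_phi R (by omega)).trans ?_
            have : (0 : ℝ) ≤ 1 / R := by positivity
            linarith
          · have hc : (((Finset.range (R + 1)).filter Nat.Prime).card : ℝ) ≤ (R : ℝ) + 1 := by
              have := Finset.card_filter_le (Finset.range (R + 1)) Nat.Prime
              rw [Finset.card_range] at this
              exact_mod_cast this
            have hR1 : (0 : ℝ) < (R : ℝ) + 1 := by positivity
            calc _ ≤ ((R : ℝ) + 1) * (1 / (60 * ((R : ℝ) + 1))) :=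
                  mul_le_mul_of_nonneg_right hc (by positivity)
              _ = 1 / 60 := by
                  field_simp
      _ = _ := by ring
  have h2 : ∑ r ∈ (Finset.Ioc R X).filter Nat.Prime, sqS h X r ≤ (1 / 60 : ℝ) * X := by
    have a1 : ∑ r ∈ (Finset.Ioc R X).filter Nat.Prime, sqS h X r ≤
        (∑ r ∈ (Finset.Ioc R X).filter Nat.Prime, D * (1 / ((r : ℝ) * Real.sqrt r))) * X := by
      rw [Finset.sum_mul]
      refine Finset.sum_le_sum ?_
      intro r hr
      rw [Finset.mem_filter, Finset.mem_Ioc] at hr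
      refine (hD X (by omega) r hr.2 (by omega)).trans (le_of_eq ?_)
      ring
    refine a1.trans (mul_le_mul_of_nonneg_right ?_ hXp)
    have a2 := hs ((Finset.Ioc R X).filter Nat.Prime) (by
      rw [Finset.disjoint_left]
      intro p hp hq
      rw [Finset.mem_filter, Finset.mem_Ioc] at hp
      have : p ≤ s.sup id := Finset.le_sup (f := id) hq
      omega)
    rw [mem_ball_zero_iff, Real.norm_eq_abs] at a2
    exact (le_abs_self _).trans a2.le
  rw [hsplit] at hE
  linarith

/-- the signs are bounded measurable -/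
theorem measurable_sg (k : ℕ) : Measurable (fun ω : ℕ → Bool => sg ω k) := by
  have h1 : Measurable (fun b : Bool => if b then (1 : ℝ) else -1) := measurable_of_finite _
  exact h1.comp (measurable_pi_apply k)

theorem cm_sqfree (ω : ℕ → Bool) {n : ℕ} (hn : Squarefree n) :
    cm ω n = ∏ p ∈ n.primeFactors, sg ω (Nat.count Nat.Prime p) := by
  unfold cm
  rw [Finsupp.prod, Nat.support_factorization]
  refine Finset.prod_congr rfl ?_
  intro p hp
  have h1 : n.factorization p = 1 := by
    have h2 := hn.natFactorization_le_one p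
    have h3 := (Nat.prime_of_mem_primeFactors hp).factorization_pos_of_dvd hn.ne_zero
      (Nat.dvd_of_mem_primeFactors hp)
    omega
  rw [h1, pow_one]

theorem measurable_cm (n : ℕ) : Measurable (fun ω : ℕ → Bool => cm ω n) := by
  unfold cm Finsupp.prod
  refine Finset.measurable_fun_prod _ ?_
  intro p _
  exact (measurable_sg _).pow_const _

theorem abs_cm (ω : ℕ → Bool) (n : ℕ) : |cm ω n| = 1 := by
  unfold cm
  rw [Finsupp.prod, Finset.abs_prod]
  refine Finset.prod_eq_one ?_
  intro p _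
  rw [abs_pow, abs_sg, one_pow]

theorem integrable_cm (ν : Measure (ℕ → Bool)) [IsProbabilityMeasure ν] (n : ℕ) :
    Integrable (fun ω : ℕ → Bool => cm ω n) ν := by
  refine Integrable.of_bound (measurable_cm n).aestronglyMeasurable 1 ?_
  refine ae_of_all _ ?_
  intro ω
  rw [Real.norm_eq_abs, abs_cm]

/-- the mean of `cm` -/
theorem mean_cm (ν : Measure (ℕ → Bool)) [IsProbabilityMeasure ν] (β : ℝ)
    (hν : ∀ s : Finset ℕ, ∫ ω, ∏ k ∈ s, sg ω k ∂ν = ∏ k ∈ s, -(pr k : ℝ) ^ (β - 1)) {n : ℕ}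
    (hn : Squarefree n) :
    ∫ ω, cm ω n ∂ν = ((ArithmeticFunction.moebius n : ℤ) : ℝ) * (n : ℝ) ^ (β - 1) := by
  classical
  obtain ⟨s, hs⟩ : ∃ s : Finset ℕ, s = n.primeFactors.image (Nat.count Nat.Prime) := ⟨_, rfl⟩
  have hinj : Set.InjOn (Nat.count Nat.Prime) (n.primeFactors : Set ℕ) := by
    intro p hp q hq hpq
    have h1 := Nat.prime_of_mem_primeFactors (Finset.mem_coe.1 hp)
    have h2 := Nat.prime_of_mem_primeFactors (Finset.mem_coe.1 hq)
    exact Nat.count_injective h1 h2 hpq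
  have e1 : ∀ ω : ℕ → Bool, cm ω n = ∏ k ∈ s, sg ω k := by
    intro ω
    rw [cm_sqfree ω hn, hs, Finset.prod_image hinj]
  have e2 : ∫ ω, cm ω n ∂ν = ∫ ω, ∏ k ∈ s, sg ω k ∂ν := by
    refine integral_congr_ae ?_
    exact ae_of_all _ e1
  rw [e2, hν, hs, Finset.prod_image hinj]
  have e3 : ∀ p ∈ n.primeFactors, -(pr (Nat.count Nat.Prime p) : ℝ) ^ (β - 1) =
      (-1) * (p : ℝ) ^ (β - 1) := by
    intro p hp
    have : pr (Nat.count Nat.Prime p) = p := by
      unfold pr
      exact Nat.nth_count (Nat.prime_of_mem_primeFactors hp)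
    rw [this]
    ring
  rw [Finset.prod_congr rfl e3, Finset.prod_mul_distrib, Finset.prod_const,
    Real.finsetProd_rpow _ _ (fun i _ => Nat.cast_nonneg i)]
  have e4 : ∏ p ∈ n.primeFactors, (p : ℝ) = n := by
    rw [← Nat.cast_prod, Nat.prod_primeFactors_of_squarefree hn]
  have e5 : ArithmeticFunction.cardFactors n = n.primeFactors.card := by
    rw [← (ArithmeticFunction.cardDistinctFactors_eq_cardFactors_iff_squarefree hn.ne_zero).2 hn]
    rfl
  rw [e4, ArithmeticFunction.moebius_apply_of_squarefree hn, e5]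
  push_cast
  rfl

/-- Job `EP-COL` (helper255). -/
theorem col : S_COL := by
  classical
  intro ν _ β hβ hβ1 hν h ε hε
  have hlim : Tendsto (fun X : ℕ => (X : ℝ) ^ ε) atTop atTop :=
    (tendsto_rpow_atTop hε).comp tendsto_natCast_atTop_atTop
  filter_upwards [colG h, eventually_ge_atTop 1, hlim.eventually (eventually_ge_atTop (15 : ℝ))]
    with X hX hX1 hX2
  have hXp : (0 : ℝ) < X := by exact_mod_cast hX1
  have e1 : ∫ ω, cor (cm ω) h X ∂ν = ∑ n ∈ Finset.Icc 1 X,
      ((ArithmeticFunction.moebius n : ℤ) : ℝ) * (∫ ω, cm ω n ∂ν) *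
        ArithmeticFunction.vonMangoldt ((n : ℤ) - h).toNat := by
    unfold cor
    rw [integral_finsetSum]
    · refine Finset.sum_congr rfl ?_
      intro n _
      rw [integral_mul_const, integral_const_mul]
    · intro n _
      exact ((integrable_cm ν n).const_mul _).mul_const _
  have e2 : ∀ n ∈ (spS h X).filter Squarefree, (X : ℝ) ^ (β - 1) * lgS h n ≤
      ((ArithmeticFunction.moebius n : ℤ) : ℝ) * (∫ ω, cm ω n ∂ν) *
        ArithmeticFunction.vonMangoldt ((n : ℤ) - h).toNat := by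
    intro n hn
    rw [Finset.mem_filter] at hn
    have hn1 := mem_spS.1 hn.1
    have hn0 : (0 : ℝ) < n := by exact_mod_cast hn1.1.1
    rw [mean_cm ν β hν hn.2, ArithmeticFunction.vonMangoldt_apply_prime hn1.2, ← mul_assoc]
    have hmu : ((ArithmeticFunction.moebius n : ℤ) : ℝ) * ((ArithmeticFunction.moebius n : ℤ) : ℝ) = 1 := by
      have := ArithmeticFunction.moebius_sq_eq_one_of_squarefree hn.2
      rw [pow_two] at this
      exact_mod_cast this
    rw [hmu, one_mul]
    refine mul_le_mul_of_nonneg_right ?_ (lgS_nonneg hn.1)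
    refine Real.rpow_le_rpow_of_nonpos hn0 ?_ (by linarith)
    exact_mod_cast hn1.1.2
  have e3 : ∀ n ∈ Finset.Icc 1 X, 0 ≤
      ((ArithmeticFunction.moebius n : ℤ) : ℝ) * (∫ ω, cm ω n ∂ν) *
        ArithmeticFunction.vonMangoldt ((n : ℤ) - h).toNat := by
    intro n hn
    refine mul_nonneg ?_ ArithmeticFunction.vonMangoldt_nonneg
    by_cases hs : Squarefree n
    · rw [mean_cm ν β hν hs, ← mul_assoc]
      exact mul_nonneg (mul_self_nonneg _) (Real.rpow_nonneg (Nat.cast_nonneg n) _)
    · rw [ArithmeticFunction.moebius_eq_zero_of_not_squarefree hs]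
      simp
  have e4 : (X : ℝ) ^ (β - 1) * ((X : ℝ) / 15) ≤ ∫ ω, cor (cm ω) h X ∂ν := by
    rw [e1]
    calc (X : ℝ) ^ (β - 1) * ((X : ℝ) / 15) ≤
          (X : ℝ) ^ (β - 1) * ∑ n ∈ (spS h X).filter Squarefree, lgS h n :=
          mul_le_mul_of_nonneg_left hX (Real.rpow_nonneg hXp.le _)
      _ = ∑ n ∈ (spS h X).filter Squarefree, (X : ℝ) ^ (β - 1) * lgS h n := Finset.mul_sum _ _ _
      _ ≤ ∑ n ∈ (spS h X).filter Squarefree, ((ArithmeticFunction.moebius n : ℤ) : ℝ) *
            (∫ ω, cm ω n ∂ν) * ArithmeticFunction.vonMangoldt ((n : ℤ) - h).toNat :=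
          Finset.sum_le_sum e2
      _ ≤ _ := by
          refine Finset.sum_le_sum_of_subset_of_nonneg ?_ ?_
          · intro n hn
            have := (mem_spS.1 (Finset.mem_filter.1 hn).1).1
            rw [Finset.mem_Icc]
            exact this
          · intro n hn _
            exact e3 n hn
  refine le_trans ?_ e4
  have e5 : (X : ℝ) ^ (β - 1) * ((X : ℝ) / 15) = (X : ℝ) ^ β / 15 := by
    rw [← mul_div_assoc]
    congr 1
    nth_rewrite 2 [← Real.rpow_one (X : ℝ)]
    rw [← Real.rpow_add hXp]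
    congr 1
    ring
  rw [e5, Real.rpow_sub hXp]
  exact div_le_div_of_nonneg_left (Real.rpow_nonneg hXp.le _) (by norm_num) hX2

end Pool.Agent.Q14.EP
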