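import Pool.Agent.Q255.EP.Stm4

/-! # Project EP (helper255), job COR: correlations with shifted primes, all shifts at once -/

set_option autoImplicit false

namespace Pool.Agent.Q14.EP

open Filter Topology MeasureTheory Pool.Agent.Q255.IC Pool.Agent.Q255.IR Pool.Agent.Q255.EP

/-- the truncated weights -/
noncomputable def wC (A J : ℕ) (t : ℕ × ℤ) (m : ℕ) : ℝ :=
  if 1 ≤ m ∧ m ≤ t.1 then ((ArithmeticFunction.moebius m : ℤ) : ℝ) *
    ArithmeticFunction.vonMangoldt ((m : ℤ) - t.2).toNat / (((A : ℝ) + 2) * ((J : ℝ) + 1)) else 0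

/-- the parameters -/
noncomputable def pC (A J : ℕ) : Finset (ℕ × ℤ) :=
  Finset.Icc 1 (2 ^ J) ×ˢ Finset.Icc (-(2 ^ (J * A) : ℤ)) (2 ^ (J * A))

theorem card_pC (A J : ℕ) : ((pC A J).card : ℝ) ≤ Real.exp (((A : ℝ) + 2) * ((J : ℝ) + 1)) := by
  have h1 : (pC A J).card ≤ 2 ^ (J + J * A + 2) := by
    unfold pC
    rw [Finset.card_product, Nat.card_Icc, Int.card_Icc, Nat.add_sub_cancel]
    have h2 : ((2 : ℤ) ^ (J * A) + 1 - -(2 ^ (J * A) : ℤ)).toNat = 2 * 2 ^ (J * A) + 1 := by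
      have h3 : (2 : ℤ) ^ (J * A) + 1 - -(2 ^ (J * A) : ℤ) = ((2 * 2 ^ (J * A) + 1 : ℕ) : ℤ) := by
        push_cast
        ring
      rw [h3, Int.toNat_natCast]
    rw [h2]
    have h4 : 1 ≤ 2 ^ (J * A) := Nat.one_le_two_pow
    calc 2 ^ J * (2 * 2 ^ (J * A) + 1) ≤ 2 ^ J * (4 * 2 ^ (J * A)) := Nat.mul_le_mul_left _ (by omega)
      _ = 2 ^ (J + J * A + 2) := by
          rw [pow_add, pow_add]
          ring
  have h2 : (2 : ℝ) ≤ Real.exp 1 := by
    have := Real.add_one_le_exp (1 : ℝ)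
    linarith
  calc ((pC A J).card : ℝ) ≤ (2 : ℝ) ^ (J + J * A + 2) := by exact_mod_cast h1
    _ ≤ Real.exp 1 ^ (J + J * A + 2) := pow_le_pow_left₀ (by norm_num) h2 _
    _ = Real.exp (J + J * A + 2) := by
        rw [← Real.exp_nat_mul]
        push_cast
        rw [mul_one]
    _ ≤ _ := by
        apply Real.exp_le_exp.2
        have hA : (0 : ℝ) ≤ A := Nat.cast_nonneg A
        have hJ : (0 : ℝ) ≤ J := Nat.cast_nonneg J
        nlinarith [mul_nonneg hA hJ]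

theorem vM_le (A J m : ℕ) (h : ℤ) (hm : m ≤ 2 ^ J) (hh : -(2 ^ (J * A) : ℤ) ≤ h) :
    ArithmeticFunction.vonMangoldt ((m : ℤ) - h).toNat ≤ ((A : ℝ) + 2) * ((J : ℝ) + 1) := by
  have hA : (0 : ℝ) ≤ A := Nat.cast_nonneg A
  have hJ : (0 : ℝ) ≤ J := Nat.cast_nonneg J
  refine ArithmeticFunction.vonMangoldt_le_log.trans ?_
  rcases Nat.eq_zero_or_pos ((m : ℤ) - h).toNat with h0 | h0
  · rw [h0, Nat.cast_zero, Real.log_zero]
    positivity
  have h1 : ((m : ℤ) - h).toNat ≤ 2 ^ (J + J * A + 1) := by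
    rw [Int.toNat_le]
    have h2 : (m : ℤ) ≤ 2 ^ J := by exact_mod_cast hm
    have h3 : (1 : ℤ) ≤ 2 ^ J := one_le_pow₀ (by norm_num)
    have h4 : (1 : ℤ) ≤ 2 ^ (J * A) := one_le_pow₀ (by norm_num)
    push_cast
    have h5 : (2 : ℤ) ^ (J + J * A + 1) = 2 * (2 ^ J * 2 ^ (J * A)) := by
      rw [pow_add, pow_add]
      ring
    rw [h5]
    nlinarith [mul_nonneg (sub_nonneg.2 h3) (sub_nonneg.2 h4)]
  have h2 : Real.log ((((m : ℤ) - h).toNat : ℕ) : ℝ) ≤ Real.log ((2 : ℝ) ^ (J + J * A + 1)) := by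
    refine Real.log_le_log (by exact_mod_cast h0) ?_
    exact_mod_cast h1
  refine h2.trans ?_
  rw [Real.log_pow]
  have h3 : Real.log 2 ≤ 1 := by
    have := Real.log_two_lt_d9
    linarith
  have h4 : (0 : ℝ) ≤ ((J + J * A + 1 : ℕ) : ℝ) := Nat.cast_nonneg _
  calc ((J + J * A + 1 : ℕ) : ℝ) * Real.log 2 ≤ ((J + J * A + 1 : ℕ) : ℝ) * 1 :=
        mul_le_mul_of_nonneg_left h3 h4
    _ ≤ _ := by
        push_cast
        nlinarith [mul_nonneg hA hJ]

theorem abs_wC (A J : ℕ) (t : ℕ × ℤ) (ht : t ∈ pC A J) (m : ℕ) : |wC A J t m| ≤ 1 := by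
  have hA : (0 : ℝ) ≤ A := Nat.cast_nonneg A
  have hJ : (0 : ℝ) ≤ J := Nat.cast_nonneg J
  unfold wC
  split_ifs with h
  · unfold pC at ht
    rw [Finset.mem_product, Finset.mem_Icc, Finset.mem_Icc] at ht
    have h1 := vM_le A J m t.2 (h.2.trans ht.1.2) ht.2.1
    have h2 : |((ArithmeticFunction.moebius m : ℤ) : ℝ)| ≤ 1 := by
      exact_mod_cast ArithmeticFunction.abs_moebius_le_one
    have h3 : (0 : ℝ) < ((A : ℝ) + 2) * ((J : ℝ) + 1) := by positivity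
    rw [abs_div, abs_of_pos h3, div_le_one h3, abs_mul,
      abs_of_nonneg ArithmeticFunction.vonMangoldt_nonneg]
    calc _ ≤ 1 * ArithmeticFunction.vonMangoldt ((m : ℤ) - t.2).toNat :=
          mul_le_mul_of_nonneg_right h2 ArithmeticFunction.vonMangoldt_nonneg
      _ ≤ _ := by
          rw [one_mul]
          exact h1
  · simp

theorem cor_all (h : S_ENG) : S_COR := by
  classical
  intro ν _ δ hδ hD
  rw [ae_all_iff]
  intro A
  have h1 := h ν δ hδ hD (fun J => (pC A J).image (wC A J)) ((A : ℝ) + 2) (by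
    intro J w hw m
    obtain ⟨t, ht, rfl⟩ := Finset.mem_image.1 hw
    exact abs_wC A J t ht m) (by
    intro J w hw m hm
    obtain ⟨t, ht, rfl⟩ := Finset.mem_image.1 hw
    unfold pC at ht
    rw [Finset.mem_product, Finset.mem_Icc] at ht
    unfold wC
    rw [if_neg]
    rintro ⟨_, h2⟩
    have := ht.1.2
    omega) (by
    intro J
    refine le_trans ?_ (card_pC A J)
    exact_mod_cast Finset.card_image_le)
  filter_upwards [h1] with ω hω ε hε
  obtain ⟨C, hC⟩ := hω (ε / 2) (by positivity)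
  have hl2 : 0 < Real.log 2 := Real.log_pos (by norm_num)
  obtain ⟨K, hK⟩ : ∃ K : ℝ, K = 1 + 1 / (ε / 2 * Real.log 2) := ⟨_, rfl⟩
  have hK0 : 0 < K := by
    rw [hK]
    positivity
  have hA : (0 : ℝ) ≤ A := Nat.cast_nonneg A
  refine ⟨((A : ℝ) + 2) * K * |C| * 2 ^ ε, ?_⟩
  intro X s hX hs
  have hXp : (0 : ℝ) < X := by exact_mod_cast hX
  obtain ⟨J, hJ⟩ : ∃ J : ℕ, J = Nat.log 2 X + 1 := ⟨_, rfl⟩
  have hJ1 : X < 2 ^ J := by
    rw [hJ]
    exact Nat.lt_pow_succ_log_self (by norm_num) X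
  have hJ2 : 2 ^ J ≤ 2 * X := by
    rw [hJ, pow_succ']
    exact Nat.mul_le_mul_left 2 (Nat.pow_log_le_self 2 (by omega))
  have hJn : (0 : ℝ) ≤ J := Nat.cast_nonneg J
  have hXA : (X : ℤ) ^ A ≤ 2 ^ (J * A) := by
    rw [pow_mul]
    exact_mod_cast Nat.pow_le_pow_left hJ1.le A
  have hmem : wC A J (X, s) ∈ (pC A J).image (wC A J) := by
    refine Finset.mem_image_of_mem _ ?_
    unfold pC
    rw [Finset.mem_product, Finset.mem_Icc, Finset.mem_Icc]
    have h2 := abs_le.1 (hs.trans hXA)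
    exact ⟨⟨hX, hJ1.le⟩, h2⟩
  have h3 := hC J (wC A J (X, s)) hmem X (by
    intro m hm
    unfold wC
    rw [if_neg]
    rintro ⟨_, h4⟩
    have h5 : m ≤ X := h4
    omega)
  have hAJ : (0 : ℝ) < ((A : ℝ) + 2) * ((J : ℝ) + 1) := by positivity
  have h4 : cor (cm ω) s X = (((A : ℝ) + 2) * ((J : ℝ) + 1)) *
      ∑ m ∈ Finset.Icc 1 X, wC A J (X, s) m * cm ω m := by
    unfold cor
    rw [Finset.mul_sum]
    refine Finset.sum_congr rfl fun m hm => ?_
    rw [Finset.mem_Icc] at hm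
    unfold wC
    rw [if_pos hm]
    field_simp
  rw [h4, abs_mul, abs_of_pos hAJ]
  have h5 : (2 : ℝ) ^ (ε / 2 * J) * (2 : ℝ) ^ (ε / 2 * J) ≤ 2 ^ ε * (X : ℝ) ^ ε := by
    rw [← Real.rpow_add (by norm_num), ← Real.mul_rpow (by norm_num) hXp.le]
    have e1 : ε / 2 * J + ε / 2 * J = (J : ℝ) * ε := by ring
    rw [e1, Real.rpow_mul (by norm_num), Real.rpow_natCast]
    refine Real.rpow_le_rpow (by positivity) ?_ hε.le
    exact_mod_cast hJ2
  have h6 : (J : ℝ) + 1 ≤ K * (2 : ℝ) ^ (ε / 2 * J) := by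
    have h7 : 1 + ε / 2 * J * Real.log 2 ≤ (2 : ℝ) ^ (ε / 2 * J) := by
      rw [Real.rpow_def_of_pos (by norm_num)]
      have := Real.add_one_le_exp (Real.log 2 * (ε / 2 * J))
      linarith
    have h8 : (J : ℝ) + 1 ≤ K * (1 + ε / 2 * J * Real.log 2) := by
      have h9 : 1 / (ε / 2 * Real.log 2) * (ε / 2 * J * Real.log 2) = J := by
        field_simp
      have h10 : (0 : ℝ) ≤ 1 / (ε / 2 * Real.log 2) := by positivity
      have h11 : (0 : ℝ) ≤ ε / 2 * J * Real.log 2 := by positivity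
      rw [hK]
      nlinarith
    exact h8.trans (mul_le_mul_of_nonneg_left h7 hK0.le)
  have h7 : 0 ≤ (X : ℝ) ^ ((1 + δ) / 2) := by positivity
  have h8 : (0 : ℝ) < (2 : ℝ) ^ (ε / 2 * J) := by positivity
  calc ((A : ℝ) + 2) * ((J : ℝ) + 1) * |∑ m ∈ Finset.Icc 1 X, wC A J (X, s) m * cm ω m|
      ≤ ((A : ℝ) + 2) * (K * (2 : ℝ) ^ (ε / 2 * J)) *
          (|C| * (2 : ℝ) ^ (ε / 2 * J) * (X : ℝ) ^ ((1 + δ) / 2)) := by
        refine mul_le_mul (mul_le_mul_of_nonneg_left h6 (by positivity)) (h3.trans ?_)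
          (abs_nonneg _) (by positivity)
        refine mul_le_mul_of_nonneg_right ?_ h7
        exact mul_le_mul_of_nonneg_right (le_abs_self C) h8.le
    _ = ((A : ℝ) + 2) * K * |C| * ((2 : ℝ) ^ (ε / 2 * J) * (2 : ℝ) ^ (ε / 2 * J)) *
          (X : ℝ) ^ ((1 + δ) / 2) := by ring
    _ ≤ ((A : ℝ) + 2) * K * |C| * (2 ^ ε * (X : ℝ) ^ ε) * (X : ℝ) ^ ((1 + δ) / 2) := by
        refine mul_le_mul_of_nonneg_right ?_ h7
        exact mul_le_mul_of_nonneg_left h5 (by positivity)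
    _ = ((A : ℝ) + 2) * K * |C| * 2 ^ ε * (X : ℝ) ^ ((1 + δ) / 2 + ε) := by
        rw [Real.rpow_add hXp]
        ring

end Pool.Agent.Q14.EP
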