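import Pool.Agent.Q255.EP.Stm2

/-! # Project EP (helper255), job DIAG: diagonal Elliott-Halberstam sums for all laws -/

set_option autoImplicit false

namespace Pool.Agent.Q14.EP

open Filter Topology MeasureTheory Pool.Agent.Q255.IC Pool.Agent.Q255.IR Pool.Agent.Q255.EP
open Pool.Agent.Q163.HC Pool.Agent.Q163.RP

/-- the truncated weights -/
noncomputable def wR (t : Bool × ℕ × ℕ × ℕ) (m : ℕ) : ℝ :=
  if 1 ≤ m ∧ m ≤ t.2.1 then wt t.1 t.2.2.1 t.2.2.2 m / 4 else 0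

theorem abs_wR (t : Bool × ℕ × ℕ × ℕ) (m : ℕ) : |wR t m| ≤ 1 := by
  unfold wR
  split_ifs
  · rw [abs_div, div_le_one (by norm_num)]
    rw [abs_of_pos (show (0 : ℝ) < 4 by norm_num)]
    exact wt_le _ _ _ _
  · simp

/-- the parameters -/
def pR (A J : ℕ) : Finset (Bool × ℕ × ℕ × ℕ) :=
  Finset.univ ×ˢ Finset.Icc 1 (2 ^ J) ×ˢ Finset.Icc 1 (2 ^ (J * A)) ×ˢ Finset.Icc 1 (2 ^ (J * A))

theorem card_pR (A J : ℕ) : ((pR A J).card : ℝ) ≤ Real.exp (((2 * A + 1 : ℕ) : ℝ) * ((J : ℝ) + 1)) := by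
  have h1 : (pR A J).card = 2 ^ (1 + J * (2 * A + 1)) := by
    unfold pR
    rw [Finset.card_product, Finset.card_product, Finset.card_product, Finset.card_univ,
      Fintype.card_bool, Nat.card_Icc, Nat.card_Icc, Nat.add_sub_cancel, Nat.add_sub_cancel]
    rw [← pow_add, ← pow_add]
    rw [← pow_succ']
    congr 1
    ring
  rw [h1]
  push_cast
  have h2 : (2 : ℝ) ≤ Real.exp 1 := by
    have := Real.add_one_le_exp (1 : ℝ)
    linarith
  calc (2 : ℝ) ^ (1 + J * (2 * A + 1)) ≤ Real.exp 1 ^ (1 + J * (2 * A + 1)) :=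
        pow_le_pow_left₀ (by norm_num) h2 _
    _ = Real.exp (1 + J * (2 * A + 1)) := by
        rw [← Real.exp_nat_mul]
        push_cast
        rw [mul_one]
    _ ≤ _ := by
        apply Real.exp_le_exp.2
        have hA : (0 : ℝ) ≤ A := Nat.cast_nonneg A
        nlinarith

theorem cm_eq (ω : ℕ → Bool) : cm ω = mult (fun p => sg ω (Nat.count Nat.Prime p)) := by
  funext n
  rfl

theorem diag (h : S_ENG) : S_DIAG := by
  classical
  intro ν _ δ hδ hD
  have h1 : ∀ᵐ ω ∂ν, ∀ A : ℕ, ∀ ε : ℝ, 0 < ε → ∃ C : ℝ, ∀ J, ∀ w ∈ (pR A J).image wR, ∀ M : ℕ,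
      (∀ m, M < m → w m = 0) →
        |∑ m ∈ Finset.Icc 1 M, w m * cm ω m| ≤ C * (2 : ℝ) ^ (ε * J) * (M : ℝ) ^ ((1 + δ) / 2) := by
    rw [ae_all_iff]
    intro A
    refine h ν δ hδ hD (fun J => (pR A J).image wR) ((2 * A + 1 : ℕ) : ℝ) ?_ ?_ ?_
    · intro J w hw m
      obtain ⟨t, _, rfl⟩ := Finset.mem_image.1 hw
      exact abs_wR t m
    · intro J w hw m hm
      obtain ⟨t, ht, rfl⟩ := Finset.mem_image.1 hw
      unfold pR at ht
      rw [Finset.mem_product, Finset.mem_product, Finset.mem_Icc] at ht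
      unfold wR
      rw [if_neg]
      rintro ⟨_, h2⟩
      have := ht.2.1.2
      omega
    · intro J
      refine le_trans ?_ (card_pR A J)
      exact_mod_cast Finset.card_image_le
  filter_upwards [h1] with ω hω σ θ hσ hσ1 hθ0 hθ
  obtain ⟨σ', hσ'1, hσ'2⟩ := exists_between hσ
  have hσ'0 : 0 ≤ σ' := by linarith
  have hc : ∀ p, |(fun p => sg ω (Nat.count Nat.Prime p)) p| = 1 := by
    intro p
    simp only
    unfold Pool.Agent.Q255.IC.sg
    split_ifs <;> simp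
  have hH : ∀ A : ℕ, ∀ᶠ R : ℕ in atTop, ∀ N q : ℕ, 1 ≤ N → N ≤ R ^ A → 1 ≤ q → q ≤ R ^ A → ∀ l,
      |∑ m ∈ Finset.Icc 1 R, wt l N q m * mult (fun p => sg ω (Nat.count Nat.Prime p)) m| ≤
        4 * (R : ℝ) ^ σ' := by
    intro A
    obtain ⟨ε, hε⟩ : ∃ ε : ℝ, ε = (σ' - (1 + δ) / 2) / 2 := ⟨_, rfl⟩
    have hε0 : 0 < ε := by
      rw [hε]
      linarith
    obtain ⟨C, hC⟩ := hω A ε hε0
    have h2 : ∀ᶠ R : ℕ in atTop, |C| * 2 ^ ε ≤ (R : ℝ) ^ ε :=
      ((tendsto_rpow_atTop hε0).comp tendsto_natCast_atTop_atTop).eventually_ge_atTop _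
    filter_upwards [h2, eventually_ge_atTop 1] with R hR hR1 N q hN1 hN hq1 hq l
    have hRp : (0 : ℝ) < R := by exact_mod_cast hR1
    set J : ℕ := Nat.log 2 R + 1 with hJ
    have hJ1 : R < 2 ^ J := Nat.lt_pow_succ_log_self (by norm_num) R
    have hJ2 : 2 ^ J ≤ 2 * R := by
      rw [hJ, pow_succ']
      exact Nat.mul_le_mul_left 2 (Nat.pow_log_le_self 2 (by omega))
    have hRA : R ^ A ≤ 2 ^ (J * A) := by
      rw [pow_mul]
      exact Nat.pow_le_pow_left hJ1.le A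
    have hmem : wR (l, R, N, q) ∈ (pR A J).image wR := by
      refine Finset.mem_image_of_mem _ ?_
      unfold pR
      rw [Finset.mem_product, Finset.mem_product, Finset.mem_product, Finset.mem_Icc, Finset.mem_Icc,
        Finset.mem_Icc]
      exact ⟨Finset.mem_univ _, ⟨hR1, hJ1.le⟩, ⟨hN1, hN.trans hRA⟩, ⟨hq1, hq.trans hRA⟩⟩
    have h3 := hC J (wR (l, R, N, q)) hmem R (by
      intro m hm
      unfold wR
      rw [if_neg]
      rintro ⟨_, h4⟩
      have h5 : m ≤ R := h4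
      omega)
    have h4 : ∑ m ∈ Finset.Icc 1 R, wt l N q m * mult (fun p => sg ω (Nat.count Nat.Prime p)) m =
        4 * ∑ m ∈ Finset.Icc 1 R, wR (l, R, N, q) m * cm ω m := by
      rw [Finset.mul_sum, cm_eq]
      refine Finset.sum_congr rfl fun m hm => ?_
      rw [Finset.mem_Icc] at hm
      unfold wR
      rw [if_pos hm]
      ring
    rw [h4, abs_mul, abs_of_pos (show (0 : ℝ) < 4 by norm_num)]
    refine mul_le_mul_of_nonneg_left (h3.trans ?_) (by norm_num)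
    have h5 : (2 : ℝ) ^ (ε * J) ≤ 2 ^ ε * (R : ℝ) ^ ε := by
      rw [← Real.mul_rpow (by norm_num) hRp.le, mul_comm ε (J : ℝ), Real.rpow_mul (by norm_num),
        Real.rpow_natCast]
      refine Real.rpow_le_rpow (by positivity) ?_ hε0.le
      exact_mod_cast hJ2
    have h6 : 0 ≤ (R : ℝ) ^ ((1 + δ) / 2) := by positivity
    calc C * (2 : ℝ) ^ (ε * J) * (R : ℝ) ^ ((1 + δ) / 2)
        ≤ |C| * (2 ^ ε * (R : ℝ) ^ ε) * (R : ℝ) ^ ((1 + δ) / 2) := by
          refine mul_le_mul_of_nonneg_right ?_ h6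
          exact mul_le_mul (le_abs_self C) h5 (by positivity) (abs_nonneg C)
      _ = (|C| * 2 ^ ε) * ((R : ℝ) ^ ε * (R : ℝ) ^ ((1 + δ) / 2)) := by ring
      _ ≤ (R : ℝ) ^ ε * ((R : ℝ) ^ ε * (R : ℝ) ^ ((1 + δ) / 2)) :=
          mul_le_mul_of_nonneg_right hR (by positivity)
      _ = (R : ℝ) ^ σ' := by
          rw [← Real.rpow_add hRp, ← Real.rpow_add hRp]
          congr 1
          rw [hε]
          ring
  have h2 := diag_final (fun p => sg ω (Nat.count Nat.Prime p)) hc σ' hσ'0 (by linarith) hH θ hθ0.le hθ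
  have hδ' : 0 < (σ - σ') * (1 - θ) := mul_pos (by linarith) (by linarith)
  filter_upwards [h2, polylog 8 _ hδ', eventually_ge_atTop 1] with N hN1 hN2 hN l
  have hNp : (0 : ℝ) < N := by exact_mod_cast hN
  rw [cm_eq]
  refine (hN1 l).trans ?_
  have h4 : (N : ℝ) ^ (σ + θ * (1 - σ)) =
      (N : ℝ) ^ ((σ - σ') * (1 - θ)) * (N : ℝ) ^ (σ' + θ * (1 - σ')) := by
    rw [← Real.rpow_add hNp]
    congr 1
    ring
  rw [h4]
  exact mul_le_mul_of_nonneg_right hN2 (by positivity)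

end Pool.Agent.Q14.EP
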