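import Pool.Agent.Q255.EP.Stm2
import Pool.Agent.Q150.IC.Jen

/-! # Project EP (helper255), job FIN: finite changes of the signs and the information -/

set_option autoImplicit false

namespace Pool.Agent.Q14.EP

open Filter Topology MeasureTheory Pool.Agent.Q255.IC Pool.Agent.Q255.IR Pool.Agent.Q255.EP
open Pool.Agent.Q150.IC (cyl_meas sum_cyl)

/-- concavity of `-x log x` on a finite set of at most `N` elements -/
theorem nml_sum {ι : Type} (T : Finset ι) (q : ι → ℝ) (hq : ∀ i ∈ T, 0 ≤ q i) (N : ℝ)
    (hN : (T.card : ℝ) ≤ N) :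
    ∑ i ∈ T, Real.negMulLog (q i) ≤ Real.negMulLog (∑ i ∈ T, q i) + (∑ i ∈ T, q i) * Real.log N := by
  classical
  rcases T.eq_empty_or_nonempty with h | h
  · rw [h]
    simp
  have hc : (0 : ℝ) < T.card := by exact_mod_cast h.card_pos
  have h1 := Real.concaveOn_negMulLog.le_map_sum (t := T) (w := fun _ => (T.card : ℝ)⁻¹) (p := q)
    (fun _ _ => by positivity) (by rw [Finset.sum_const, nsmul_eq_mul, mul_inv_cancel₀ hc.ne'])
    (fun i hi => Set.mem_Ici.2 (hq i hi))
  simp only [smul_eq_mul] at h1
  rw [← Finset.mul_sum, ← Finset.mul_sum] at h1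
  have hQ : 0 ≤ ∑ i ∈ T, q i := Finset.sum_nonneg hq
  have h2 : Real.negMulLog ((T.card : ℝ)⁻¹ * ∑ i ∈ T, q i) =
      (T.card : ℝ)⁻¹ * (Real.negMulLog (∑ i ∈ T, q i) + (∑ i ∈ T, q i) * Real.log T.card) := by
    rw [Real.negMulLog_mul]
    have h3 : Real.negMulLog ((T.card : ℝ)⁻¹) = (T.card : ℝ)⁻¹ * Real.log T.card := by
      rw [Real.negMulLog, Real.log_inv]
      ring
    rw [h3]
    ring
  rw [h2] at h1
  have h3 := le_of_mul_le_mul_left h1 (inv_pos.2 hc)
  have h4 : Real.log T.card ≤ Real.log N := Real.log_le_log hc hN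
  have h5 := mul_le_mul_of_nonneg_left h4 hQ
  linarith

/-- the changed word -/
def tw (F G : Finset ℕ) {n : ℕ} (s : Fin n → Bool) : Fin n → Bool := fun k =>
  if (k : ℕ) ∈ F then decide ((k : ℕ) ∈ G) else s k

theorem card_fibre (F G : Finset ℕ) {n : ℕ} (s' : Fin n → Bool) :
    (Finset.univ.filter fun s : Fin n → Bool => tw F G s = s').card ≤ 2 ^ F.card := by
  classical
  have h1 : (Finset.univ.filter fun s : Fin n → Bool => tw F G s = s').card ≤
      (Finset.univ : Finset (F → Bool)).card := by
    refine Finset.card_le_card_of_injOn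
      (fun s => fun k : F => if h : (k : ℕ) < n then s ⟨k, h⟩ else false)
      (fun s _ => Finset.mem_coe.2 (Finset.mem_univ _)) ?_
    intro s hs t ht hst
    rw [Finset.mem_coe, Finset.mem_filter] at hs ht
    funext k
    by_cases hk : (k : ℕ) ∈ F
    · have h2 := congrFun hst ⟨k, hk⟩
      simp only [k.2, dif_pos] at h2
      exact h2
    · have h2 := congrFun (hs.2.trans ht.2.symm) k
      unfold tw at h2
      rw [if_neg hk, if_neg hk] at h2
      exact h2
  refine h1.trans (le_of_eq ?_)
  rw [Finset.card_univ, Fintype.card_fun, Fintype.card_bool, Fintype.card_coe]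

theorem t_FIN : Pool.Agent.Q255.EP.S_FIN := by
  classical
  intro ν _ F G
  have hm : Measurable (ov F G) := by
    refine measurable_pi_lambda _ fun k => ?_
    unfold ov
    by_cases h : k ∈ F
    · simp only [if_pos h]
      exact measurable_const
    · simp only [if_neg h]
      exact measurable_pi_apply k
  have hP : IsProbabilityMeasure (ν.map (ov F G)) := Measure.isProbabilityMeasure_map hm.aemeasurable
  refine ⟨hP, fun n => ?_⟩
  obtain ⟨q, hq⟩ : ∃ q : (Fin n → Bool) → ℝ, q = fun s => ν.real {ω | ∀ k : Fin n, ω k = s k} :=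
    ⟨_, rfl⟩
  have hqs : ∀ s, ν.real {ω | ∀ k : Fin n, ω k = s k} = q s := fun s => by rw [hq]
  have hq0 : ∀ s, 0 ≤ q s := fun s => by
    rw [← hqs]
    exact measureReal_nonneg
  have hq1 : ∑ s, q s = 1 := by
    have h := sum_cyl ν n Set.univ
    simp only [Set.inter_univ] at h
    rw [measureReal_def, measure_univ, ENNReal.toReal_one] at h
    rw [← h]
    exact Finset.sum_congr rfl fun s _ => (hqs s).symm
  have hq' : ∀ s' : Fin n → Bool, (ν.map (ov F G)).real {ω | ∀ k : Fin n, ω k = s' k} =
      ∑ s ∈ Finset.univ.filter (fun s => tw F G s = s'), q s := by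
    intro s'
    have h1 : (ν.map (ov F G)).real (Pool.Agent.Q150.IC.cyl s') =
        ν.real (ov F G ⁻¹' Pool.Agent.Q150.IC.cyl s') := by
      rw [measureReal_def, Measure.map_apply hm (cyl_meas s'), ← measureReal_def]
    have h2 : (ν.map (ov F G)).real {ω | ∀ k : Fin n, ω k = s' k} =
        ν.real (ov F G ⁻¹' Pool.Agent.Q150.IC.cyl s') := h1
    rw [h2, ← sum_cyl ν n, Finset.sum_filter]
    refine Finset.sum_congr rfl fun s _ => ?_
    split_ifs with h
    · rw [← hqs]
      congr 1
      ext ω
      constructor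
      · exact fun h => h.1
      · intro hω
        refine ⟨hω, fun k => ?_⟩
        rw [← h]
        unfold ov tw
        have h3 : ω (k : ℕ) = s k := hω k
        rw [h3]
    · have h3 : Pool.Agent.Q150.IC.cyl s ∩ ov F G ⁻¹' Pool.Agent.Q150.IC.cyl s' = ∅ := by
        rw [Set.eq_empty_iff_forall_notMem]
        rintro ω ⟨h4, h5⟩
        apply h
        funext k
        have h6 : ω (k : ℕ) = s k := h4 k
        have h7 : ov F G ω (k : ℕ) = s' k := h5 k
        rw [← h7]
        unfold ov tw
        rw [h6]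
      rw [h3, measureReal_empty]
  have h2F : (1 : ℝ) ≤ 2 ^ F.card := one_le_pow₀ (by norm_num)
  have key : ∑ s, Real.negMulLog (q s) ≤
      ∑ s' : Fin n → Bool, Real.negMulLog ((ν.map (ov F G)).real {ω | ∀ k : Fin n, ω k = s' k}) +
        F.card * Real.log 2 := by
    have h1 : ∑ s' : Fin n → Bool, ∑ s ∈ Finset.univ.filter (fun s => tw F G s = s'),
        Real.negMulLog (q s) = ∑ s, Real.negMulLog (q s) :=
      Finset.sum_fiberwise Finset.univ (fun s => tw F G s) fun s => Real.negMulLog (q s)
    have h2 : ∑ s' : Fin n → Bool, ∑ s ∈ Finset.univ.filter (fun s => tw F G s = s'), q s = ∑ s, q s :=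
      Finset.sum_fiberwise Finset.univ (fun s => tw F G s) q
    rw [← h1]
    calc ∑ s' : Fin n → Bool, ∑ s ∈ Finset.univ.filter (fun s => tw F G s = s'), Real.negMulLog (q s)
        ≤ ∑ s' : Fin n → Bool, (Real.negMulLog ((ν.map (ov F G)).real {ω | ∀ k : Fin n, ω k = s' k}) +
          (∑ s ∈ Finset.univ.filter (fun s => tw F G s = s'), q s) * (F.card * Real.log 2)) := by
          refine Finset.sum_le_sum fun s' _ => ?_
          have h3 := nml_sum (Finset.univ.filter (fun s => tw F G s = s')) q (fun s _ => hq0 s)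
            ((2 : ℝ) ^ F.card) (by exact_mod_cast card_fibre F G s')
          rw [Real.log_pow] at h3
          rw [hq' s']
          exact h3
      _ = _ := by
          rw [Finset.sum_add_distrib, ← Finset.sum_mul, h2, hq1, one_mul]
  unfold D entropy
  have h3 : ∑ s : Fin n → Bool, Real.negMulLog (ν.real {ω | ∀ k : Fin n, ω k = s k}) =
      ∑ s, Real.negMulLog (q s) := Finset.sum_congr rfl fun s _ => by rw [hqs]
  rw [h3]
  linarith

end Pool.Agent.Q14.EP
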